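import Pool.Agent.X115.HS.Stm

/-!
Part UNI of project HS: uniqueness for the analytic data with `A = 0`.
-/

set_option autoImplicit false

namespace Pool.Agent.X274.HS

open MeasureTheory Set Filter Topology Pool.Agent.X115.HS

lemma re_pos (s : ℝ) (hs : 0 < s) (z : ℂ) (hz : ‖z - s‖ ≤ s / 2) : 0 < z.re := by
  have h1 := Complex.abs_re_le_norm (z - s)
  rw [Complex.sub_re, Complex.ofReal_re] at h1
  have h2 := (abs_le.1 (h1.trans hz)).1
  linarith

lemma int_pow (t : ℝ) (n : ℕ) : ∫ τ in (0 : ℝ)..t, (t - τ) * τ ^ n =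
    t ^ (n + 2) / ((n + 1) * (n + 2)) := by
  have h1 : ∀ τ : ℝ, (t - τ) * τ ^ n = t * τ ^ n - τ ^ (n + 1) := fun τ => by ring
  simp only [h1]
  rw [intervalIntegral.integral_sub (Continuous.intervalIntegrable (by fun_prop) _ _)
    (Continuous.intervalIntegrable (by fun_prop) _ _), intervalIntegral.integral_const_mul,
    integral_pow, integral_pow]
  have h2 : (n : ℝ) + 1 ≠ 0 := by positivity
  have h3 : (n : ℝ) + 2 ≠ 0 := by positivity
  have h4 : ((n + 1 : ℕ) : ℝ) + 1 = (n : ℝ) + 2 := by push_cast; ring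
  rw [h4]
  field_simp
  simp
  ring

lemma bound (V W : ℂ → ℝ → ℂ) (h : AD V W (fun _ => 0)) (s : ℝ) (hs : 0 < s) (T M : ℝ)
    (hM : ∀ z : ℂ, ‖z - s‖ ≤ s / 2 → ∀ t ∈ Icc 0 T, ‖V z t‖ ≤ M) (J : ℕ) (hJ : 1 ≤ J) (j : ℕ) :
    j ≤ J → ∀ z : ℂ, ‖z - s‖ ≤ s / 2 * (1 - j / J) → ∀ t ∈ Icc 0 T,
      ‖V z t‖ ≤ M * (2 * J / s) ^ j * (t ^ (2 * j) / (2 * j).factorial) := by
  have hJ0 : (0 : ℝ) < J := by exact_mod_cast hJ
  induction j with
  | zero =>
    intro _ z hz t ht
    simp only [Nat.cast_zero, zero_div, sub_zero, mul_one] at hz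
    simpa using hM z hz t ht
  | succ j ih =>
    intro hj z hz t ht
    have hjr : (j : ℝ) + 1 ≤ J := by exact_mod_cast hj
    have hr : 0 < s / (2 * J) := by positivity
    have e1 : s / 2 * (1 - (j : ℝ) / J) = s / 2 * (1 - ((j + 1 : ℕ) : ℝ) / J) + s / (2 * J) := by
      push_cast
      field_simp
      ring
    have hsub : ∀ w : ℂ, ‖w - z‖ ≤ s / (2 * J) → ‖w - s‖ ≤ s / 2 * (1 - j / J) := by
      intro w hw
      rw [e1]
      calc ‖w - s‖ = ‖(z - s) + (w - z)‖ := by congr 1; ring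
        _ ≤ ‖z - s‖ + ‖w - z‖ := norm_add_le _ _
        _ ≤ _ := add_le_add hz hw
    have hle : s / 2 * (1 - (j : ℝ) / J) ≤ s / 2 := by
      have : 0 ≤ (j : ℝ) / J := by positivity
      nlinarith
    have hz0 : ‖z - s‖ ≤ s / 2 * (1 - j / J) := hsub z (by rw [sub_self, norm_zero]; exact hr.le)
    have hzre : 0 < z.re := re_pos s hs z (hz0.trans hle)
    have hW : ∀ τ ∈ Icc 0 T, ‖W z τ‖ ≤
        M * (2 * J / s) ^ (j + 1) * (τ ^ (2 * j) / (2 * j).factorial) := by
      intro τ hτ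
      have h1 : deriv (fun w => V w τ) z = W z τ := (h.dV z hzre τ hτ.1).deriv
      rw [← h1]
      have h2 : DiffContOnCl ℂ (fun w => V w τ) (Metric.ball z (s / (2 * J))) := by
        apply DifferentiableOn.diffContOnCl
        intro w hw
        have hw' : ‖w - z‖ ≤ s / (2 * J) := by
          have := Metric.closure_ball_subset_closedBall hw
          rwa [Metric.mem_closedBall, dist_eq_norm] at this
        exact (h.dV w (re_pos s hs w ((hsub w hw').trans hle)) τ
          hτ.1).differentiableAt.differentiableWithinAt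
      refine (Complex.norm_deriv_le_of_forall_mem_sphere_norm_le hr h2
        (C := M * (2 * J / s) ^ j * (τ ^ (2 * j) / (2 * j).factorial)) ?_).trans (le_of_eq ?_)
      · intro w hw
        rw [Metric.mem_sphere, dist_eq_norm] at hw
        exact ih (by omega) w (hsub w hw.le) τ hτ
      · rw [pow_succ]
        field_simp
    have hd := h.duh z hzre t ht.1
    rw [zero_mul, zero_sub] at hd
    rw [hd, norm_neg]
    have h3 : ‖∫ τ in (0 : ℝ)..t, (Real.sin (t - τ) : ℂ) * W z τ‖ ≤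
        ∫ τ in (0 : ℝ)..t, M * (2 * J / s) ^ (j + 1) / (2 * j).factorial *
          ((t - τ) * τ ^ (2 * j)) := by
      refine intervalIntegral.norm_integral_le_of_norm_le ht.1 (Eventually.of_forall ?_)
        (Continuous.intervalIntegrable (by fun_prop) _ _)
      intro τ hτ
      have h4 : |Real.sin (t - τ)| ≤ t - τ := by
        have := Real.abs_sin_le_abs (x := t - τ)
        rwa [abs_of_nonneg (by linarith [hτ.2] : 0 ≤ t - τ)] at this
      have h5 := hW τ ⟨hτ.1.le, hτ.2.trans ht.2⟩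
      rw [norm_mul, Complex.norm_real, Real.norm_eq_abs]
      calc |Real.sin (t - τ)| * ‖W z τ‖ ≤ (t - τ) *
          (M * (2 * J / s) ^ (j + 1) * (τ ^ (2 * j) / (2 * j).factorial)) :=
            mul_le_mul h4 h5 (norm_nonneg _) (by linarith [hτ.2])
        _ = _ := by ring
    refine h3.trans (le_of_eq ?_)
    rw [intervalIntegral.integral_const_mul, int_pow]
    have e2 : (2 * (j + 1)).factorial = (2 * j + 2) * ((2 * j + 1) * (2 * j).factorial) := by
      rw [show 2 * (j + 1) = (2 * j + 1) + 1 by ring, Nat.factorial_succ, Nat.factorial_succ]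
    rw [e2, show 2 * (j + 1) = 2 * j + 2 by ring]
    push_cast
    have e3 : ((2 * j).factorial : ℝ) ≠ 0 := by positivity
    field_simp

theorem t_UNI : S_UNI := by
  intro V W h s hs t ht
  obtain ⟨M, hM⟩ := h.bdd t
  have hM0 : 0 ≤ M := (norm_nonneg _).trans
    (hM s hs s (by rw [sub_self, norm_zero]; positivity) t ⟨ht, le_rfl⟩)
  have h1 : ∀ J : ℕ, 1 ≤ J → ‖V s t‖ ≤ M * ((2 * t ^ 2 / s) ^ J / J.factorial) := by
    intro J hJ
    have hJ0 : (0 : ℝ) < J := by exact_mod_cast hJ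
    have h2 := bound V W h s hs t M (hM s hs) J hJ J le_rfl s
      (by rw [sub_self, norm_zero, div_self hJ0.ne', sub_self, mul_zero]) t ⟨ht, le_rfl⟩
    refine h2.trans ?_
    have h3 : (J.factorial : ℝ) * (J : ℝ) ^ J ≤ ((2 * J).factorial : ℝ) := by
      have h4 := Nat.factorial_mul_pow_le_factorial (m := J) (n := J)
      have h5 : J.factorial * J ^ J ≤ (2 * J).factorial := by
        rw [two_mul]
        exact (Nat.mul_le_mul_left _ (Nat.pow_le_pow_left (Nat.le_succ J) J)).trans h4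
      exact_mod_cast h5
    have h6 : (0 : ℝ) < (J.factorial : ℝ) * (J : ℝ) ^ J := by positivity
    have h7 : t ^ (2 * J) / ((2 * J).factorial : ℝ) ≤ t ^ (2 * J) / (J.factorial * (J : ℝ) ^ J) :=
      div_le_div_of_nonneg_left (by positivity) h6 h3
    calc M * (2 * J / s) ^ J * (t ^ (2 * J) / ((2 * J).factorial : ℝ)) ≤
        M * (2 * J / s) ^ J * (t ^ (2 * J) / (J.factorial * (J : ℝ) ^ J)) := by
          gcongr
      _ = M * ((2 * t ^ 2 / s) ^ J / J.factorial) := by
          rw [div_pow, div_pow, mul_pow, mul_pow, pow_mul]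
          field_simp
  have h2 : Tendsto (fun J : ℕ => M * ((2 * t ^ 2 / s) ^ J / J.factorial)) atTop (𝓝 0) := by
    have := (FloorSemiring.tendsto_pow_div_factorial_atTop (2 * t ^ 2 / s)).const_mul M
    rwa [mul_zero] at this
  have h3 : ‖V s t‖ ≤ 0 := ge_of_tendsto h2 (eventually_atTop.2 ⟨1, h1⟩)
  exact norm_le_zero_iff.1 h3

end Pool.Agent.X274.HS
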